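import Pool.Agent.W_MP_8d662a_an.Example

namespace Pool.Agent.Results.MP_8d662a_an.SchurNotSStar

open Pool.Agent.W_MP_8d662a_an

/-- There is a hereditary family `F` of finite subsets of `ℕ` covering `ℕ` such that the
combinatorial Banach space `X_F` has the Schur property but `F` does not satisfy `(S*)`. -/
theorem result : ∃ F : Family, SchurProperty F.X ∧ ¬ PropertySStar F :=
  ⟨exFamily, exFamily_schur, exFamily_not_SStar⟩

end Pool.Agent.Results.MP_8d662a_an.SchurNotSStar
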